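import Pool.Agent.H47.FD.A6
import Pool.Agent.H47.FD.R1
import Pool.Agent.H47.FD.R2
import Pool.Agent.H47.FH.M
import Pool.Agent.H47.FH.W7
import Pool.Agent.H47.FH.N4

/-!
# Uniformly convex renormings with uniformly continuous second derivative

The question is equivalent to a question on finite-dimensional spaces, and there to the existence
of smooth convex functions on the unit ball which separate, on the average, the end points of
given segments from their midpoints.
-/

set_option autoImplicit false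

open ENNReal

namespace Pool.Agent.Results.MP_66af60_an.FiniteDimensionalForm

open Pool.Agent.H47.SR Pool.Agent.H47.SS Pool.Agent.H47.FD Pool.Agent.H47.FH

/-- The hypothesis of the question: `X` contains no isomorphic copy of `c₀` and has an equivalent
norm whose second derivative is locally uniformly continuous on its unit sphere. -/
def Hypothesis (X : Type) [NormedAddCommGroup X] [NormedSpace ℝ X] : Prop :=
  (¬ ∃ T : ZeroAtInftyContinuousMap ℕ ℝ →L[ℝ] X, ∃ c : ℝ, 0 < c ∧
      ∀ f : ZeroAtInftyContinuousMap ℕ ℝ, c * ‖f‖ ≤ ‖T f‖) ∧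
    ∃ N : X → ℝ, EqNorm N ∧ LocC2 N

/-- The conclusion of the question: `X` has an equivalent uniformly convex norm whose second
derivative is uniformly continuous on its unit sphere. -/
def Conclusion (X : Type) [NormedAddCommGroup X] [NormedSpace ℝ X] : Prop :=
  ∃ N : X → ℝ, EqNorm N ∧ UConv N ∧ UnifC2 N

/-- `w` takes positive values at positive arguments. -/
def Pos (w : ℝ → ℝ) : Prop := ∀ ε : ℝ, 0 < ε → 0 < w ε

/-- The following are equivalent: Q1 holds for all Banach spaces; the conclusion holds for the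
`ℓ₃`-sum of every countable family of finite-dimensional spaces whose norms have a common modulus
of continuity `w` for their second derivatives; for every `w` and `K > 1` there are moduli `δ`,
`ω` such that all finite-dimensional spaces whose norms have the modulus `w` have norms with the
constant `K` and the moduli `δ`, `ω`; for every `w` and `e > 0` there are constants such that all
these spaces satisfy `Sep`. -/
theorem result : List.TFAE [
    (∀ (X : Type) [NormedAddCommGroup X] [NormedSpace ℝ X] [CompleteSpace X],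
      Hypothesis X → Conclusion X),
    (∀ w : ℝ → ℝ, Pos w → ∀ (ι : Type) [Countable ι] (E : ι → Type)
      [∀ i, NormedAddCommGroup (E i)] [∀ i, NormedSpace ℝ (E i)]
      [∀ i, FiniteDimensional ℝ (E i)], (∀ i, Smooth w (E i)) → Conclusion (lp E 3)),
    (∀ w : ℝ → ℝ, Pos w → ∀ K : ℝ, 1 < K → ∃ (δ ω : ℝ → ℝ), Pos δ ∧ Pos ω ∧
      ∀ (E : Type) [NormedAddCommGroup E] [NormedSpace ℝ E] [FiniteDimensional ℝ E],
        Smooth w E → ∃ N : E → ℝ, Mod K δ ω N),
    (∀ w : ℝ → ℝ, Pos w → ∀ e : ℝ, 0 < e → ∃ (s C d : ℝ) (v : ℝ → ℝ), 0 < s ∧ 0 < C ∧ 0 < d ∧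
      Pos v ∧ ∀ (E : Type) [NormedAddCommGroup E] [NormedSpace ℝ E] [FiniteDimensional ℝ E],
        Smooth w E → Sep e s C d v E)] := by
  tfae_have 1 → 2 := fun h w hw ι _ E _ _ _ hE =>
    h (lp E 3) ⟨no_c0, sum_hyp hw hE⟩
  tfae_have 2 → 3 := fun h w hw K hK =>
    fin_of_sums_K hw (fun ι _ E _ _ _ hE => h w hw ι E hE) hK
  tfae_have 3 → 4 := by
    intro h w hw e he
    obtain ⟨δ, ω, hδ, hω, h1⟩ := h w hw 2 one_lt_two
    obtain ⟨C, d, v, hC, hd, hv, h2⟩ := exists_avg.{0} 2 δ ω two_pos hδ hω e he
    exact ⟨1, C, d, v, one_pos, hC, hd, hv, fun E _ _ _ hE => (h2 E (h1 E hE)).sep⟩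
  tfae_have 4 → 1 := by
    intro h X _ _ _ hX
    obtain ⟨N, hN, hU⟩ := exists_unifC2 hX.1 hX.2.choose_spec.1 hX.2.choose_spec.2
    obtain ⟨Y, i1, i2, g, hg⟩ := exists_renorm hN
    have hY : UnifC2 (fun y : Y => ‖y‖) := by
      have h1 := unifC2_comp hN hU g.symm
      have h2 : (fun y : Y => N (g.symm y)) = fun y : Y => ‖y‖ := by
        funext y
        rw [← hg, g.apply_symm_apply]
      rwa [h2] at h1
    have hE : EqNorm (fun y : Y => ‖y‖) :=
      ⟨⟨1, 1, one_pos, one_pos, fun x => by simp⟩, norm_add_le, fun t x => norm_smul t x⟩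
    obtain ⟨w, hw, hs⟩ := exists_smooth hY
    obtain ⟨N', hN'⟩ := pnorm_of_avg hE hY (fun e he => by
      obtain ⟨s, C, d, v, hs', hC, hd, hv, h2⟩ := h w hw e he
      obtain ⟨C', d', v', hC', hd', hv', h3⟩ := exists_avg_of_sep hs' hC hd hv
      exact ⟨C', d', v', hC', hd', hv', fun E _ => h3 e E (h2 E (smooth_sub hs E))⟩)
    exact ⟨_, pnorm_comp hN' g⟩
  tfae_finish

end Pool.Agent.Results.MP_66af60_an.FiniteDimensionalForm
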