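import Pool.Agent.H47.FD.A6
import Pool.Agent.H47.FD.R1
import Pool.Agent.H47.FD.R2
import Pool.Agent.H47.FH.M
import Pool.Agent.H47.FH.W7
import Pool.Agent.H47.FH.J1
import Pool.Agent.H47.FH.N4

/-!
# Uniformly convex renormings with uniformly continuous second derivative

Characterizations of the spaces for which the answer to the question is positive.
-/

set_option autoImplicit false

open TopologicalSpace

namespace Pool.Agent.Results.MP_66af60_an.LocalCharacterization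

open Pool.Agent.H47.SR Pool.Agent.H47.SS Pool.Agent.H47.FD Pool.Agent.H47.FH

/-- The hypothesis of the question: `X` contains no isomorphic copy of `c₀` and has an equivalent
norm whose second derivative is locally uniformly continuous on its unit sphere. -/
def Hypothesis (X : Type) [NormedAddCommGroup X] [NormedSpace ℝ X] : Prop :=
  (¬ ∃ T : ZeroAtInftyContinuousMap ℕ ℝ →L[ℝ] X, ∃ c : ℝ, 0 < c ∧
      ∀ f : ZeroAtInftyContinuousMap ℕ ℝ, c * ‖f‖ ≤ ‖T f‖) ∧
    ∃ N : X → ℝ, EqNorm N ∧ LocC2 N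

/-- The conclusion of the question: `X` has an equivalent uniformly convex norm whose second
derivative is uniformly continuous on its unit sphere. -/
def Conclusion (X : Type) [NormedAddCommGroup X] [NormedSpace ℝ X] : Prop :=
  ∃ N : X → ℝ, EqNorm N ∧ UConv N ∧ UnifC2 N

/-- `w` takes positive values at positive arguments. -/
def Pos (w : ℝ → ℝ) : Prop := ∀ ε : ℝ, 0 < ε → 0 < w ε

/-- For a Banach space `X` as in Q1 the following are equivalent: the conclusion holds for `X`;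
it holds for every closed separable subspace; there are common constants for the
finite-dimensional subspaces; for every `e > 0` there are constants such that all
finite-dimensional subspaces satisfy `Sep`; one equivalent uniformly convex norm is a uniform
limit on the unit ball of equivalent norms with uniformly continuous second derivative; every
equivalent norm `ν` with uniformly continuous second derivative can be approximated by norms as
in the conclusion. -/
theorem result (X : Type) [NormedAddCommGroup X] [NormedSpace ℝ X] [CompleteSpace X]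
    (hX : Hypothesis X) : List.TFAE [
    Conclusion X,
    ∀ Y : Submodule ℝ X, IsClosed (Y : Set X) → IsSeparable (Y : Set X) → Conclusion Y,
    ∃ (K : ℝ) (δ ω : ℝ → ℝ), 0 < K ∧ Pos δ ∧ Pos ω ∧
      ∀ E : Submodule ℝ X, FiniteDimensional ℝ E → ∃ N : E → ℝ, Mod K δ ω N,
    ∀ e : ℝ, 0 < e → ∃ (s C d : ℝ) (v : ℝ → ℝ), 0 < s ∧ 0 < C ∧ 0 < d ∧ Pos v ∧
      ∀ E : Submodule ℝ X, FiniteDimensional ℝ E → Sep e s C d v E,
    ∃ μ : X → ℝ, EqNorm μ ∧ UConv μ ∧ ∀ η : ℝ, 0 < η →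
      ∃ N : X → ℝ, EqNorm N ∧ UnifC2 N ∧ ∀ x, |N x - μ x| ≤ η * ‖x‖,
    ∀ ν : X → ℝ, EqNorm ν → UnifC2 ν → ∀ K : ℝ, 1 < K →
      ∃ N : X → ℝ, EqNorm N ∧ UConv N ∧ UnifC2 N ∧ ∀ x, ν x ≤ N x ∧ N x ≤ K * ν x] := by
  obtain ⟨N₀, hN₀, hU₀⟩ := exists_unifC2 hX.1 hX.2.choose_spec.1 hX.2.choose_spec.2
  tfae_have 1 → 2 := by
    rintro ⟨N, h1, h2, h3⟩ Y - -
    obtain ⟨K, δ, ω, hK, hm, hM⟩ := PNorm.exists_mod ⟨h1, h2, h3⟩
    exact ⟨_, (hM.comp Y.subtypeₗᵢ).pnorm hK (fun ε hε => (hm ε hε).1)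
      (fun ε hε => (hm ε hε).2)⟩
  tfae_have 2 → 1 := by
    intro h
    obtain ⟨N, hN⟩ := separably_determined (X := X) (fun Y hcl hsep => by
      obtain ⟨N, h1, h2, h3⟩ := h Y hcl hsep
      exact ⟨N, h1, h2, h3⟩)
    exact ⟨N, hN.1, hN.2.1, hN.2.2⟩
  tfae_have 1 → 3 := by
    rintro ⟨N, h1, h2, h3⟩
    obtain ⟨K, δ, ω, hK, hm, hM⟩ := PNorm.exists_mod ⟨h1, h2, h3⟩
    exact ⟨K, δ, ω, hK, fun ε hε => (hm ε hε).1, fun ε hε => (hm ε hε).2,
      fun E _ => ⟨_, hM.comp E.subtypeₗᵢ⟩⟩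
  tfae_have 3 → 4 := by
    rintro ⟨K, δ, ω, hK, hδ, hω, h⟩ e he
    obtain ⟨C, d, v, hC, hd, hv, h1⟩ := exists_avg.{0} K δ ω hK hδ hω e he
    exact ⟨1, C, d, v, one_pos, hC, hd, hv, fun E hE => (h1 E (h E hE)).sep⟩
  tfae_have 4 → 1 := by
    intro h
    obtain ⟨N, hN⟩ := pnorm_of_avg hN₀ hU₀ (fun e he => by
      obtain ⟨s, C, d, v, hs, hC, hd, hv, h1⟩ := h e he
      obtain ⟨C', d', v', hC', hd', hv', h2⟩ := exists_avg_of_sep hs hC hd hv
      exact ⟨C', d', v', hC', hd', hv', fun E hE => h2 e E (h1 E hE)⟩)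
    exact ⟨N, hN.1, hN.2.1, hN.2.2⟩
  tfae_have 1 → 6 := by
    rintro ⟨N, h1, h2, h3⟩ ν hν hU K hK
    obtain ⟨Y, i1, i2, g, hg⟩ := exists_renorm hν
    have hY : UnifC2 (fun y : Y => ‖y‖) := by
      have h4 := unifC2_comp hν hU g.symm
      have h5 : (fun y : Y => ν (g.symm y)) = fun y : Y => ‖y‖ := by
        funext y
        rw [← hg, g.apply_symm_apply]
      rwa [h5] at h4
    have hP : PNorm (fun y : Y => N (g.symm y)) := pnorm_comp ⟨h1, h2, h3⟩ g.symm
    obtain ⟨N1, hN1, hb⟩ := exists_improve hY hP hK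
    have hQ := pnorm_comp hN1 g
    refine ⟨_, hQ.1, hQ.2.1, hQ.2.2, fun x => ?_⟩
    have h6 := hb (g x)
    rwa [hg] at h6
  tfae_have 6 → 5 := by
    intro h
    obtain ⟨N, h1, h2, h3, -⟩ := h N₀ hN₀ hU₀ 2 one_lt_two
    exact ⟨N, h1, h2, fun η hη => ⟨N, h1, h3, fun x => by
      rw [sub_self, abs_zero]
      positivity⟩⟩
  tfae_have 5 → 1 := by
    rintro ⟨μ, h1, h2, h3⟩
    obtain ⟨N, hN⟩ := pnorm_of_approx h1 h2 h3
    exact ⟨N, hN.1, hN.2.1, hN.2.2⟩
  tfae_finish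

end Pool.Agent.Results.MP_66af60_an.LocalCharacterization
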