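import Pool.Agent.H47.FD.A6
import Pool.Agent.H47.FH.K7

/-!
# Uniformly convex renormings with uniformly continuous second derivative

Local uniform convexity, and uniform convexity with respect to functionals, together with a
uniformly continuous second derivative.
-/

set_option autoImplicit false

open TopologicalSpace

namespace Pool.Agent.Results.MP_66af60_an.LocallyConvexNorm

open Pool.Agent.H47.SR Pool.Agent.H47.SS Pool.Agent.H47.FD Pool.Agent.H47.FH

/-- The hypothesis of the question: `X` contains no isomorphic copy of `c₀` and has an equivalent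
norm whose second derivative is locally uniformly continuous on its unit sphere. -/
def Hypothesis (X : Type) [NormedAddCommGroup X] [NormedSpace ℝ X] : Prop :=
  (¬ ∃ T : ZeroAtInftyContinuousMap ℕ ℝ →L[ℝ] X, ∃ c : ℝ, 0 < c ∧
      ∀ f : ZeroAtInftyContinuousMap ℕ ℝ, c * ‖f‖ ≤ ‖T f‖) ∧
    ∃ N : X → ℝ, EqNorm N ∧ LocC2 N

/-- A Banach space `X` as in Q1 has equivalent norms `ν` whose second derivative is uniformly
continuous on the unit sphere.  Near each of them there are norms of the same kind that are locally
uniformly convex at the points of a given separable subspace `Y` and uniformly convex with respect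
to the functionals of a given separable set `G`; if `X` is separable, near each of them there is a
norm of the same kind that is locally uniformly convex (everywhere) and uniformly convex with
respect to every functional. -/
theorem result (X : Type) [NormedAddCommGroup X] [NormedSpace ℝ X] [CompleteSpace X]
    (hX : Hypothesis X) :
    (∃ ν : X → ℝ, EqNorm ν ∧ UnifC2 ν) ∧
    ∀ ν : X → ℝ, EqNorm ν → UnifC2 ν → ∀ K : ℝ, 1 < K →
      (∀ (Y : Submodule ℝ X) (G : Set (X →L[ℝ] ℝ)), IsSeparable (Y : Set X) → IsSeparable G →
        ∃ N : X → ℝ, EqNorm N ∧ UnifC2 N ∧ LConvOn (Y : Set X) N ∧ WConvOn G N ∧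
          ∀ x, ν x ≤ N x ∧ N x ≤ K * ν x) ∧
      (SeparableSpace X →
        ∃ N : X → ℝ, EqNorm N ∧ UnifC2 N ∧ LConvOn Set.univ N ∧ WConvOn Set.univ N ∧
          ∀ x, ν x ≤ N x ∧ N x ≤ K * ν x) := by
  refine ⟨exists_unifC2 hX.1 hX.2.choose_spec.1 hX.2.choose_spec.2, fun ν hν hU K hK => ⟨?_, ?_⟩⟩
  · intro Y G hY hG
    exact exists_conv_on hν hU hK (Y : Set X) hY G hG
  · intro hs
    exact exists_conv_on hν hU hK Set.univ (isSeparable_univ_iff.2 hs) Set.univ
      (dual_isSeparable hν hU)

end Pool.Agent.Results.MP_66af60_an.LocallyConvexNorm
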